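import Pool.Agent.Helper48.OD.St

/-! Project OD (MP_b3ce06_al): module MXA. -/

set_option autoImplicit false

namespace Pool.Agent.Helper99.OD

open Pool.Agent.Helper43.GD Pool.Agent.Helper48.OD

variable {L A : Type} [CommRing L] [Group A]

/-- the ideal of all `c` such that `F (c b)` commutes with `E (e a)` -/
private def II (Q : Fr L A) (e : L) : Ideal L where
  carrier := {c | ∀ a b : L, Commute (Q.E (e * a)) (Q.F (c * b))}
  add_mem' := by
    intro c c' hc hc' a b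
    have h : Q.F ((c + c') * b) = Q.F (c * b) * Q.F (c' * b) := by
      rw [add_mul, Q.Fadd]
    rw [h]
    exact (hc a b).mul_right (hc' a b)
  zero_mem' := by
    intro a b
    rw [zero_mul, Q.F_zero]
    exact Commute.one_right _
  smul_mem' := by
    intro r c hc a b
    have h : r • c * b = c * (r * b) := by
      rw [smul_eq_mul]
      ring
    rw [h]
    exact hc a (r * b)

private lemma mem_II {Q : Fr L A} {e c : L} :
    c ∈ II Q e ↔ ∀ a b : L, Commute (Q.E (e * a)) (Q.F (c * b)) := Iff.rfl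

/-- some `2^s`-th power has odd order -/
private lemma od_pow [Finite L] (D : Lˣ) : ∃ s : ℕ, Od (D ^ (2 ^ s)) := by
  obtain ⟨i, j, ⟨s, hs⟩, hj, hij⟩ := decomp D
  refine ⟨s, ?_⟩
  have h : D ^ (2 ^ s) = (D ^ j) ^ (2 ^ s) := by
    conv_lhs => rw [← hij]
    rw [mul_pow, hs, one_mul]
  rw [h]
  exact hj.pow _

/-- MODULE MXA. -/
theorem hMXA (h1 : StUP) (h2 : StMXP) (h3 : StMXZ) (h4 : StMXS) : StMXA := by
  intro L A _ _ Q v e g j m hv he h2e hm hme hg
  have hfin : Finite L := hv.fin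
  -- the basic elements of the ideal
  have key : ∀ ζ ∈ Q.U, Tw ζ → ∃ (D : Lˣ) (s : ℕ), (D : L) * (1 - (v : L)) = 1 - (ζ : L) * v ∧
      (D : L) ^ (2 ^ s) - 1 ∈ II Q e := by
    intro ζ hζ ht
    obtain ⟨u, hu, eu⟩ := (h1.2 L A Q v ζ hv hζ ht).2
    obtain ⟨d, hd, ed⟩ := hv.gd.2
    have hD : ((u * d⁻¹ : Lˣ) : L) * (1 - (v : L)) = 1 - (ζ : L) * v := by
      rw [← ed, ← Units.val_mul, inv_mul_cancel_right, eu, Units.val_mul]
    obtain ⟨s, hs⟩ := od_pow (u * d⁻¹)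
    refine ⟨u * d⁻¹, s, hD, ?_⟩
    have hmem : (u * d⁻¹) ^ (2 ^ s) ∈ Q.U := Q.U.pow_mem (Q.U.mul_mem hu (Q.U.inv_mem hd)) _
    have hunit : IsUnit (1 - (v : L)) := by
      rw [← ed]
      exact d.isUnit
    have hz := h3 L v ζ (u * d⁻¹) e j s hunit he h2e ht hD hs
    rw [← Units.val_pow_eq_pow_val] at hz ⊢
    rw [mem_II]
    intro a b
    exact h4 L A Q v ((u * d⁻¹) ^ (2 ^ s)) e g j m hv he h2e hm hme hg hmem hs hz a b
  have htop : II Q e ⊔ Ideal.span {e} = ⊤ := by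
    by_contra hne
    obtain ⟨P, hP, hle⟩ := Ideal.exists_le_maximal _ hne
    have heP : e ∈ P := hle (Ideal.mem_sup_right (Ideal.mem_span_singleton_self e))
    have h2P : (2 : L) ∉ P := by
      intro h
      have h5 : 1 - e ∈ P := by
        rw [← hg]
        exact P.mul_mem_right g h
      have h6 : (1 : L) ∈ P := by
        have := P.add_mem h5 heP
        rwa [sub_add_cancel] at this
      exact hP.ne_top ((Ideal.eq_top_iff_one P).mpr h6)
    obtain ⟨ζ, hζ, ht, hn⟩ := h2 L A Q v hv P hP h2P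
    obtain ⟨D, s, hD, hDs⟩ := key ζ hζ ht
    exact hn D s hD (hle (Ideal.mem_sup_left hDs))
  have hone : (1 : L) ∈ II Q e ⊔ Ideal.span {e} := by
    rw [htop]
    trivial
  obtain ⟨c, hc, d, hd, hcd⟩ := Submodule.mem_sup.mp hone
  obtain ⟨r, hr⟩ := Ideal.mem_span_singleton'.mp hd
  have hI : 1 - e ∈ II Q e := by
    have h5 : 1 - e = (1 - e) * c := by
      linear_combination (1 - e) * (-hcd) + (1 - e) * (-hr) - r * he
    rw [h5]
    exact (II Q e).mul_mem_left _ hc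
  have hfirst : ∀ a b : L, Q.E (e * a) * Q.F ((1 - e) * b) = Q.F ((1 - e) * b) * Q.E (e * a) :=
    fun a b => (mem_II.mp hI a b).eq
  refine ⟨hfirst, ?_⟩
  intro a b
  have h5 := hfirst (-b) (-a)
  have h6 := congrArg (fun x => Q.w * x * Q.w⁻¹) h5
  have h7 : Q.w * (Q.E (e * -b) * Q.F ((1 - e) * -a)) * Q.w⁻¹ =
      (Q.w * Q.E (e * -b) * Q.w⁻¹) * (Q.w * Q.F ((1 - e) * -a) * Q.w⁻¹) := by group
  have h8 : Q.w * (Q.F ((1 - e) * -a) * Q.E (e * -b)) * Q.w⁻¹ =
      (Q.w * Q.F ((1 - e) * -a) * Q.w⁻¹) * (Q.w * Q.E (e * -b) * Q.w⁻¹) := by group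
  rw [h7, h8, Q.w_E, Q.w_F] at h6
  have h9 : -(e * -b) = e * b := by ring
  have h10 : -((1 - e) * -a) = (1 - e) * a := by ring
  rw [h9, h10] at h6
  exact h6.symm

end Pool.Agent.Helper99.OD
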